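import Mathlib

/-!
# Schur stability of `W (I - t B)` and its resolvent companion fails for `n = 2`

`W = [[2/3, 1/3], [1, 0]]`, `B = [[5, -6], [-6, 10]]`, `t = 2/15`.  The spectral radius of `B` is
`14`, `B e = (-1, 4)`, the left Perron vector of `W` is `(3/4, 1/4)`; both `P(t)` and `R(t)` have a
real eigenvalue larger than `1`.
-/

set_option autoImplicit false

namespace Pool.Agent.Results.MP_d721eb_al.BothUnstable

open Matrix

/-- The spectral radius: the largest modulus of a complex eigenvalue. -/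
noncomputable def rho {n : ℕ} (M : Matrix (Fin n) (Fin n) ℝ) : ℝ :=
  sSup {x | ∃ z : ℂ, z ∈ spectrum ℂ (M.map (fun a : ℝ => (a : ℂ))) ∧ x = ‖z‖}

/-- `W` is stochastic. -/
def Stochastic {n : ℕ} (W : Matrix (Fin n) (Fin n) ℝ) : Prop :=
  (∀ i j, 0 ≤ W i j) ∧ W *ᵥ 1 = 1

/-- `W` is primitive. -/
def Primitive {n : ℕ} (W : Matrix (Fin n) (Fin n) ℝ) : Prop :=
  ∃ m : ℕ, 1 ≤ m ∧ ∀ i j, 0 < (W ^ m) i j

/-- `p` is the left Perron eigenvector of `W`. -/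
def LeftPerron {n : ℕ} (W : Matrix (Fin n) (Fin n) ℝ) (p : Fin n → ℝ) : Prop :=
  (∀ i, 0 < p i) ∧ p ᵥ* W = p ∧ p ⬝ᵥ 1 = 1

/-- `B` is symmetric positive semidefinite. -/
def PSD {n : ℕ} (B : Matrix (Fin n) (Fin n) ℝ) : Prop :=
  B = Bᵀ ∧ ∀ x : Fin n → ℝ, 0 ≤ x ⬝ᵥ (B *ᵥ x)

/-- `P(t) = W (I - t B)`. -/
def P {n : ℕ} (W B : Matrix (Fin n) (Fin n) ℝ) (t : ℝ) : Matrix (Fin n) (Fin n) ℝ :=
  W * (1 - t • B)

/-- `R(t) = I - W + (I + t B)⁻¹ (2 W - I)`. -/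
noncomputable def R {n : ℕ} (W B : Matrix (Fin n) (Fin n) ℝ) (t : ℝ) :
    Matrix (Fin n) (Fin n) ℝ :=
  1 - W + (1 + t • B)⁻¹ * ((2 : ℝ) • W - 1)

theorem mem_spec (M : Matrix (Fin 2) (Fin 2) ℝ) (z : ℂ) :
    z ∈ spectrum ℂ (M.map (fun a : ℝ => (a : ℂ))) ↔
      (z - M 0 0) * (z - M 1 1) - M 0 1 * M 1 0 = 0 := by
  rw [spectrum.mem_iff, Matrix.isUnit_iff_isUnit_det, isUnit_iff_ne_zero, not_not,
    Matrix.det_fin_two]
  simp [Matrix.algebraMap_matrix_apply]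

theorem bdd (M : Matrix (Fin 2) (Fin 2) ℝ) :
    BddAbove {x | ∃ z : ℂ, z ∈ spectrum ℂ (M.map (fun a : ℝ => (a : ℂ))) ∧ x = ‖z‖} := by
  have hf : (spectrum ℂ (M.map (fun a : ℝ => (a : ℂ)))).Finite := Matrix.finite_spectrum _
  have : {x | ∃ z : ℂ, z ∈ spectrum ℂ (M.map (fun a : ℝ => (a : ℂ))) ∧ x = ‖z‖} =
      (fun z => ‖z‖) '' spectrum ℂ (M.map (fun a : ℝ => (a : ℂ))) := by
    ext x
    simp [eq_comm]
  rw [this]
  exact (hf.image _).bddAbove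

theorem one_lt_rho (M : Matrix (Fin 2) (Fin 2) ℝ)
    (h : 1 - (M 0 0 + M 1 1) + (M 0 0 * M 1 1 - M 0 1 * M 1 0) < 0) : 1 < rho M := by
  obtain ⟨s, hs⟩ : ∃ s, s = Real.sqrt ((M 0 0 + M 1 1) ^ 2 -
    4 * (M 0 0 * M 1 1 - M 0 1 * M 1 0)) := ⟨_, rfl⟩
  obtain ⟨T, hT⟩ : ∃ T, T = M 0 0 + M 1 1 := ⟨_, rfl⟩
  obtain ⟨D, hD⟩ : ∃ D, D = M 0 0 * M 1 1 - M 0 1 * M 1 0 := ⟨_, rfl⟩
  rw [← hT, ← hD] at h hs
  have h1 : (2 - T) ^ 2 < T ^ 2 - 4 * D := by nlinarith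
  have h0 : 0 ≤ T ^ 2 - 4 * D := le_trans (sq_nonneg _) h1.le
  have hs2 : s ^ 2 = T ^ 2 - 4 * D := by rw [hs, Real.sq_sqrt h0]
  have hs0 : 0 ≤ s := hs ▸ Real.sqrt_nonneg _
  have h2 : 2 - T < s := lt_of_pow_lt_pow_left₀ 2 hs0 (by rw [hs2]; exact h1)
  obtain ⟨l, hl⟩ : ∃ l, l = (T + s) / 2 := ⟨_, rfl⟩
  have h3 : 1 < l := by rw [hl]; linarith
  have h4 : (l - M 0 0) * (l - M 1 1) - M 0 1 * M 1 0 = 0 := by
    have : l ^ 2 - T * l + D = 0 := by rw [hl]; nlinarith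
    rw [hT, hD] at this
    linarith
  refine lt_of_lt_of_le h3 (le_trans (le_abs_self l) (le_csSup (bdd M) ⟨(l : ℂ), ?_, ?_⟩))
  · rw [mem_spec]
    exact_mod_cast h4
  · rw [Complex.norm_real, Real.norm_eq_abs]

/-- The matrix `W` of the example. -/
noncomputable def W0 : Matrix (Fin 2) (Fin 2) ℝ := !![2 / 3, 1 / 3; 1, 0]

/-- The matrix `B` of the example. -/
def B0 : Matrix (Fin 2) (Fin 2) ℝ := !![5, -6; -6, 10]

theorem rho_B0 : rho B0 = 14 := by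
  have : {x | ∃ z : ℂ, z ∈ spectrum ℂ (B0.map (fun a : ℝ => (a : ℂ))) ∧ x = ‖z‖} =
      {(1 : ℝ), 14} := by
    ext x
    simp only [Set.mem_ofPred_eq, Set.mem_insert_iff, Set.mem_singleton_iff, mem_spec, B0]
    have e : ∀ z : ℂ, (z - ((5 : ℝ) : ℂ)) * (z - ((10 : ℝ) : ℂ)) - ((-6 : ℝ) : ℂ) * ((-6 : ℝ) : ℂ) =
        (z - 1) * (z - 14) := by
      intro z
      push_cast
      ring
    constructor
    · rintro ⟨z, hz, rfl⟩
      simp only [of_apply, cons_val', cons_val_zero, cons_val_one, cons_val_fin_one] at hz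
      rw [e] at hz
      rcases mul_eq_zero.1 hz with h | h
      · left
        rw [sub_eq_zero.1 h]
        simp
      · right
        rw [sub_eq_zero.1 h]
        norm_num
    · rintro (rfl | rfl)
      · refine ⟨1, ?_, by simp⟩
        simp only [of_apply, cons_val', cons_val_zero, cons_val_one, cons_val_fin_one]
        rw [e]
        ring
      · refine ⟨14, ?_, by norm_num⟩
        simp only [of_apply, cons_val', cons_val_zero, cons_val_one, cons_val_fin_one]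
        rw [e]
        ring
  rw [rho, this, csSup_pair]
  norm_num

theorem inv0 : (1 + (2 / 15 : ℝ) • B0)⁻¹ = !![525 / 731, 180 / 731; 180 / 731, 375 / 731] := by
  apply Matrix.inv_eq_right_inv
  ext i j
  fin_cases i <;> fin_cases j <;> simp [B0, Matrix.mul_apply, Fin.sum_univ_two] <;> norm_num

/-- **Both `P(t)` and `R(t)` can be unstable for some `t < 2 / ϱ(B)`.** -/
theorem result : ∃ (W B : Matrix (Fin 2) (Fin 2) ℝ) (p : Fin 2 → ℝ) (t : ℝ),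
    Stochastic W ∧ Primitive W ∧ LeftPerron W p ∧ PSD B ∧ (∀ i, (B *ᵥ 1) i ≤ rho B) ∧
      0 < p ⬝ᵥ (B *ᵥ 1) ∧ 0 < t ∧ t < 2 / rho B ∧ 1 < rho (P W B t) ∧ 1 < rho (R W B t) := by
  refine ⟨W0, B0, ![3 / 4, 1 / 4], 2 / 15, ⟨?_, ?_⟩, ⟨2, one_le_two, ?_⟩, ⟨?_, ?_, ?_⟩,
    ⟨?_, ?_⟩, ?_, ?_, by norm_num, ?_, ?_, ?_⟩
  · intro i j
    fin_cases i <;> fin_cases j <;> simp [W0]
    norm_num
  · ext i
    fin_cases i <;> simp [W0, mulVec, dotProduct, Fin.sum_univ_two] <;> norm_num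
  · intro i j
    fin_cases i <;> fin_cases j <;> simp [W0, pow_two, Matrix.mul_apply, Fin.sum_univ_two] <;>
      norm_num
  · intro i
    fin_cases i <;> norm_num
  · ext i
    fin_cases i <;> simp [W0, vecMul, dotProduct, Fin.sum_univ_two] <;> norm_num
  · simp [dotProduct, Fin.sum_univ_two]
    norm_num
  · ext i j
    fin_cases i <;> fin_cases j <;> simp [B0]
  · intro x
    simp only [B0, mulVec, dotProduct, Fin.sum_univ_two, of_apply, cons_val', cons_val_zero,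
      cons_val_one, cons_val_fin_one]
    nlinarith [sq_nonneg (5 * x 0 - 6 * x 1), sq_nonneg (x 1)]
  · intro i
    rw [rho_B0]
    fin_cases i <;> simp [B0, mulVec, dotProduct, Fin.sum_univ_two] <;> norm_num
  · simp [B0, mulVec, dotProduct, Fin.sum_univ_two]
    norm_num
  · rw [rho_B0]
    norm_num
  · apply one_lt_rho
    simp [P, W0, B0, Matrix.mul_apply, Fin.sum_univ_two]
    norm_num
  · apply one_lt_rho
    have e : R W0 B0 (2 / 15) = !![1 / 3 + 535 / 731, 170 / 731 - 1 / 3; 810 / 731 - 1,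
        1 - 255 / 731] := by
      rw [R, inv0]
      ext i j
      rw [Matrix.add_apply, Matrix.mul_apply, Fin.sum_univ_two]
      fin_cases i <;> fin_cases j <;> simp [W0] <;> norm_num
    rw [e]
    simp
    norm_num

end Pool.Agent.Results.MP_d721eb_al.BothUnstable
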